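import Pool.Agent.H966R2.CircCFG

/-!
# Bases of order `h` given by small circuits

A tradeoff between the size of decomposable circuits (nonuniform grammars) describing an asymptotic
basis of order `h`, or a large part of it, and the maximum of its representation function.
-/

set_option autoImplicit false

namespace Pool.Agent.Results.MP_d5a1e1_nt.CircuitBases

open Filter Pool.Agent.H966R2.Circ

/-- The unordered representations of `n` as a sum of `h` elements of `A`. -/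
def reps (A : Set ℕ) (h n : ℕ) : Set (Multiset ℕ) :=
  {s : Multiset ℕ | Multiset.card s = h ∧ (∀ a ∈ s, a ∈ A) ∧ s.sum = n}

theorem reps_exists_fun {A : Set ℕ} {h n : ℕ} {s : Multiset ℕ} (hs : s ∈ reps A h n) :
    ∃ f : Fin h → ℕ, (∀ i, f i ∈ A) ∧ (∀ i, f i ≤ n) ∧ Multiset.ofList (List.ofFn f) = s := by
  obtain ⟨hc, hA, hsum⟩ := hs
  obtain ⟨l, rfl⟩ := Quotient.exists_rep s
  have hl : l.length = h := hc
  subst hl
  refine ⟨fun i => l.get i, fun i => hA _ (by simp), fun i => ?_, ?_⟩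
  · have h1 : (l.get i) ∈ (Multiset.ofList l) := by simp
    have h2 := Multiset.single_le_sum (s := Multiset.ofList l) (fun x _ => Nat.zero_le x) _ h1
    have h3 : (Multiset.ofList l).sum = n := hsum
    show l.get i ≤ n
    omega
  · rw [List.ofFn_get]
    rfl

theorem reps_finite (A : Set ℕ) (h n : ℕ) : (reps A h n).Finite := by
  have h1 : (Set.range fun f : Fin h → Fin (n + 1) =>
      Multiset.ofList (List.ofFn fun i => (f i : ℕ))).Finite := Set.finite_range _
  refine h1.subset ?_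
  intro s hs
  obtain ⟨f, _, hf, rfl⟩ := reps_exists_fun hs
  exact ⟨fun i => ⟨f i, Nat.lt_succ_of_le (hf i)⟩, rfl⟩

theorem repCount_le {A : Set ℕ} {h : ℕ} (hh : 2 ≤ h) {a0 : ℕ} (ha0 : a0 ∈ A) (n : ℕ) :
    repCount A n ≤ 2 * Set.ncard (reps A h (n + (h - 2) * a0)) := by
  classical
  set R := {p : ℕ × ℕ | p.1 ∈ A ∧ p.2 ∈ A ∧ p.1 + p.2 = n} with hR
  have hRfin : R.Finite := by
    refine ((Set.finite_Iic n).prod (Set.finite_Iic n)).subset ?_
    rintro ⟨x, y⟩ ⟨_, _, h⟩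
    simp only at h
    exact ⟨by simp only [Set.mem_Iic]; omega, by simp only [Set.mem_Iic]; omega⟩
  set R1 := {p | p ∈ R ∧ p.1 ≤ p.2} with hR1
  have hR1fin : R1.Finite := hRfin.subset fun p hp => hp.1
  let φ : ℕ × ℕ → Multiset ℕ := fun p => p.1 ::ₘ p.2 ::ₘ Multiset.replicate (h - 2) a0
  have hφ : ∀ p ∈ R1, φ p ∈ reps A h (n + (h - 2) * a0) := by
    rintro ⟨a, b⟩ ⟨⟨ha, hb, hab⟩, _⟩
    refine ⟨?_, ?_, ?_⟩
    · simp only [φ, Multiset.card_cons, Multiset.card_replicate]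
      omega
    · intro x hx
      simp only [φ, Multiset.mem_cons, Multiset.mem_replicate] at hx
      rcases hx with rfl | rfl | ⟨_, rfl⟩
      · exact ha
      · exact hb
      · exact ha0
    · simp only [φ, Multiset.sum_cons, Multiset.sum_replicate, smul_eq_mul]
      simp only at hab
      omega
  have hinj : Set.InjOn φ R1 := by
    rintro ⟨a, b⟩ ⟨⟨_, _, hab⟩, hle⟩ ⟨c, d⟩ ⟨⟨_, _, hcd⟩, hle'⟩ heq
    simp only [φ] at heq
    simp only at hab hcd hle hle'
    have h1 : a ::ₘ b ::ₘ (0 : Multiset ℕ) = c ::ₘ d ::ₘ 0 := by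
      have e1 : a ::ₘ b ::ₘ Multiset.replicate (h - 2) a0 =
          (a ::ₘ b ::ₘ 0) + Multiset.replicate (h - 2) a0 := by simp
      have e2 : c ::ₘ d ::ₘ Multiset.replicate (h - 2) a0 =
          (c ::ₘ d ::ₘ 0) + Multiset.replicate (h - 2) a0 := by simp
      rw [e1, e2] at heq
      exact Multiset.add_left_inj.1 heq
    have h2 : a ∈ (c ::ₘ d ::ₘ (0 : Multiset ℕ)) := by
      rw [← h1]; simp
    simp only [Multiset.mem_cons, Multiset.notMem_zero, or_false] at h2
    rcases h2 with h2 | h2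
    · subst h2
      have : b = d := by omega
      rw [this]
    · subst h2
      have : b = c := by omega
      subst this
      have : a = b := by omega
      rw [this]
  have h1 : R1.ncard ≤ (reps A h (n + (h - 2) * a0)).ncard :=
    Set.ncard_le_ncard_of_injOn φ hφ hinj (reps_finite _ _ _)
  have h2 : R ⊆ R1 ∪ Prod.swap '' R1 := by
    rintro ⟨a, b⟩ ⟨ha, hb, hab⟩
    rcases le_total a b with h3 | h3
    · exact Or.inl ⟨⟨ha, hb, hab⟩, h3⟩
    · refine Or.inr ⟨(b, a), ⟨⟨hb, ha, ?_⟩, h3⟩, rfl⟩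
      simp only at hab ⊢
      omega
  have h3 : R.ncard ≤ R1.ncard + (Prod.swap '' R1).ncard :=
    (Set.ncard_le_ncard h2 (hR1fin.union (hR1fin.image _))).trans (Set.ncard_union_le _ _)
  have h4 : (Prod.swap '' R1).ncard ≤ R1.ncard := Set.ncard_image_le hR1fin
  have h5 : repCount A n = R.ncard := rfl
  omega

theorem count_of_basis {A : Set ℕ} {h : ℕ} (hh : 2 ≤ h)
    (hb : ∃ N : ℕ, ∀ n : ℕ, N ≤ n → (reps A h n).Nonempty) :
    ∃ c : ℝ, 0 < c ∧ ∀ᶠ N : ℕ in atTop,
      c * (N : ℝ) ^ (1 / h : ℝ) ≤ ((A ∩ Set.Iio N).ncard : ℝ) := by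
  classical
  obtain ⟨n0, hn0⟩ := hb
  have hh0 : (0 : ℝ) < h := by exact_mod_cast (by omega : 0 < h)
  refine ⟨(1 / 2 : ℝ) ^ (1 / h : ℝ), by positivity, ?_⟩
  filter_upwards [eventually_ge_atTop (2 * n0 + 1)] with N hN
  have hfin : (A ∩ Set.Iio N).Finite := (Set.finite_Iio N).subset fun a ha => ha.2
  have h1 : ∀ n, ∃ f : Fin h → ℕ, n0 ≤ n → (∀ i, f i ∈ A) ∧ (∀ i, f i ≤ n) ∧
      (Multiset.ofList (List.ofFn f)).sum = n := by
    intro n
    by_cases hn : n0 ≤ n
    · obtain ⟨s, hs⟩ := hn0 n hn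
      obtain ⟨f, hf1, hf2, hf3⟩ := reps_exists_fun hs
      exact ⟨f, fun _ => ⟨hf1, hf2, by rw [hf3]; exact hs.2.2⟩⟩
    · exact ⟨fun _ => 0, fun h => absurd h hn⟩
  choose p hp using h1
  have h2 : (N - n0) ≤ ((A ∩ Set.Iio N).ncard) ^ h := by
    have h3 : ((Finset.Ico n0 N).image p : Finset (Fin h → ℕ)) ⊆
        Fintype.piFinset (fun _ : Fin h => hfin.toFinset) := by
      intro q hq
      obtain ⟨n, hn, rfl⟩ := Finset.mem_image.1 hq
      rw [Finset.mem_Ico] at hn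
      obtain ⟨h4, h5, h6⟩ := hp n hn.1
      rw [Fintype.mem_piFinset]
      intro i
      rw [Set.Finite.mem_toFinset]
      exact ⟨h4 i, lt_of_le_of_lt (h5 i) hn.2⟩
    have h4 := Finset.card_le_card h3
    rw [Fintype.card_piFinset, Finset.prod_const, ← Set.ncard_eq_toFinset_card _ hfin,
      Finset.card_image_of_injOn, Nat.card_Ico, Finset.card_univ, Fintype.card_fin] at h4
    · exact h4
    · intro n hn m hm hnm
      rw [Finset.coe_Ico, Set.mem_Ico] at hn hm
      have h5 := (hp n hn.1).2.2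
      have h6 := (hp m hm.1).2.2
      rw [← h5, ← h6, hnm]
  have h3 : (N : ℝ) ≤ 2 * ((A ∩ Set.Iio N).ncard : ℝ) ^ h := by
    have h4 : N ≤ 2 * ((A ∩ Set.Iio N).ncard) ^ h := by omega
    exact_mod_cast h4
  rw [← Real.mul_rpow (by norm_num) (by positivity)]
  calc ((1 / 2 : ℝ) * N) ^ (1 / h : ℝ) ≤ (((A ∩ Set.Iio N).ncard : ℝ) ^ h) ^ (1 / h : ℝ) := by
        apply Real.rpow_le_rpow (by positivity) (by linarith) (by positivity)
    _ = ((A ∩ Set.Iio N).ncard : ℝ) := by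
        rw [← Real.rpow_natCast, ← Real.rpow_mul (by positivity)]
        rw [mul_one_div_cancel hh0.ne', Real.rpow_one]

/-- **Tradeoff between circuit size and representation functions, order `h`.** Let `A` be an
asymptotic basis of order `h ≥ 2`. Then there is a constant `K` such that for every base `b ≥ 2`
and all large `n`, `A` has at least `b^(n/(h+1))` elements below `b^n`, and for every decomposable
circuit with `s` gates in the `n` base-`b` digits that accepts only elements of `A`, and at least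
`b^(n/(h+1))` of them, there is `x < 2 b^n + K` that has at least
`(1/2) 2 ^ (n / (24 (h+1)² (1 + log_b (s + 1))))` unordered representations as a sum of `h`
elements of `A`. -/
theorem result (h : ℕ) (hh : 2 ≤ h) (A : Set ℕ)
    (hbasis : ∃ N : ℕ, ∀ x : ℕ, N ≤ x →
      ∃ s : Multiset ℕ, Multiset.card s = h ∧ (∀ a ∈ s, a ∈ A) ∧ s.sum = x) :
    ∃ K : ℕ, ∀ b : ℕ, 2 ≤ b → ∀ᶠ n : ℕ in atTop,
      (b : ℝ) ^ ((n : ℝ) / (h + 1)) ≤ ((A ∩ Set.Iio (b ^ n)).ncard : ℝ) ∧
      ∀ (ι : Type) [Fintype ι] (C : ι → Gate n b ι) (g : ι), Decomposable C →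
        (∀ w, Acc C w g → numVal w ∈ A) →
        (b : ℝ) ^ ((n : ℝ) / (h + 1)) ≤ ({w | Acc C w g}.ncard : ℝ) →
        ∃ x < 2 * b ^ n + K, 1 / 2 * (2 : ℝ) ^ ((n : ℝ) / (24 * (h + 1) ^ 2 *
          (1 + Real.logb b (Fintype.card ι + 1)))) ≤
          (Set.ncard {s : Multiset ℕ | Multiset.card s = h ∧ (∀ a ∈ s, a ∈ A) ∧ s.sum = x} : ℝ) := by
  have hne : A.Nonempty := by
    obtain ⟨N, hN⟩ := hbasis
    obtain ⟨s, hs, hsA, _⟩ := hN N le_rfl
    have : s ≠ 0 := by
      rintro rfl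
      simp only [Multiset.card_zero] at hs
      omega
    obtain ⟨a, ha⟩ := Multiset.exists_mem_of_ne_zero this
    exact ⟨a, hsA a ha⟩
  obtain ⟨a0, ha0⟩ := hne
  obtain ⟨c, hc, hcount⟩ := count_of_basis hh hbasis
  refine ⟨(h - 2) * a0, fun b hb => ?_⟩
  filter_upwards [thick_tradeoff (h := h) (by omega) hc hcount hb] with n hn
  refine ⟨hn.1, fun ι _ C g hC hacc hN => ?_⟩
  obtain ⟨x, hx, h1⟩ := hn.2 ι C g hC hacc hN
  refine ⟨x + (h - 2) * a0, by omega, ?_⟩
  have h2 := repCount_le hh ha0 x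
  have h3 : (repCount A x : ℝ) ≤ 2 * (Set.ncard (reps A h (x + (h - 2) * a0)) : ℝ) := by
    exact_mod_cast h2
  have h4 : (Set.ncard {s : Multiset ℕ | Multiset.card s = h ∧ (∀ a ∈ s, a ∈ A) ∧
      s.sum = x + (h - 2) * a0} : ℝ) = (Set.ncard (reps A h (x + (h - 2) * a0)) : ℝ) := rfl
  rw [h4]
  linarith

end Pool.Agent.Results.MP_d5a1e1_nt.CircuitBases
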