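import Mathlib
import Pool.Agent.H380R2.HThin
import Pool.Agent.H78R2.ET.Power

/-!
# The Erdős–Turán conjecture of order `h`: bases with irregular elements

Throughout `r_{A,h}(n) = (msets A h n).ncard` is the number of multisets of `h` elements of `A`
with sum `n`.

For a sequence `u` and `ε > 0` let `N = Irregular u ε` be the set of all integers `a` for which
the numbers `a / u j` (`j` with `u j ≤ a`) have discrepancy at least `ε` modulo one.  If
`u j = g ^ j`, then `N` consists of the integers which are not `ε`-normal in base `g`: for instance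
it contains all `a` such that some block of `s` digits does not have the frequency
`g ^ (-s)` (up to `ε`) among the blocks of base `g` digits of `a`
(see `Pool.Agent.H78R2.ET.abnormal_subset`).  Let `u` be lacunary.

1. There is `c > 0` such that every set `A ⊆ ℕ` and every large `x` satisfy
   `|A ∩ N ∩ [0,x]| ^ h ≤ x exp (-c #{j : u j ≤ x}) max_{n ≤ h x} r_{A,h}(n)`.
2. Hence, for `u j = β ^ j`: if `|A ∩ N ∩ [0,x]| ≥ x ^ ((1 - δ) / h)` for infinitely many
   `x`, in particular if `A ⊆ N` is an asymptotic basis of order `h`, then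
   `r_{A,h}(n) ≥ n ^ δ` for infinitely many `n`.
3. If `r_{A,h}` is bounded and `S` is a finite union of small sets (thin of order `h`, or with a
   long gap modulo infinitely many `m`, or consisting of irregular integers), then
   `|A ∩ S ∩ [0,x]| ^ h = o(x)`; so `A` is not an asymptotic basis of order `h` if `A ⊆ S`.
4. Well-distribution modulo most `d ≤ √x`, and more generally modulo most members of any set of
   moduli with pairwise least common multiples at most `x`.
-/

set_option autoImplicit false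

open Filter Topology

namespace Pool.Agent.Results.MP_d5a1e1_nt.IrregularBases

open Pool.Agent.H380R2 Pool.Agent.H78R2.ET

/-- `S` is thin of order `h`: either along a divisibility chain, or along a set of pairwise
coprime moduli. -/
def ThinH (h : ℕ) (S : Set ℕ) : Prop := ThinAlongChainH h S ∨ SieveThinH h S

/-- For some `δ > 0` and infinitely many `m`, the set `S` has only finitely many elements in some
interval of at least `δ m` consecutive residue classes modulo `m`. -/
def Gappy (S : Set ℕ) : Prop :=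
  ∃ δ : ℝ, 0 < δ ∧ ∃ᶠ m : ℕ in atTop, ∃ v w : ℕ, v + δ * m ≤ w ∧ w ≤ m ∧
    {a ∈ S | v ≤ a % m ∧ a % m < w}.Finite

/-- `S` is small (of order `h`): thin, or gappy, or a set of irregular integers with respect to
some lacunary sequence. -/
def Small (h : ℕ) (S : Set ℕ) : Prop :=
  ThinH h S ∨ Gappy S ∨ ∃ (u : ℕ → ℝ) (q ε : ℝ), 0 < u 0 ∧ 1 < q ∧
    (∀ j, q * u j ≤ u (j + 1)) ∧ 0 < ε ∧ S ⊆ Irregular u ε

/-- Example: the integers all of whose base `g` digits lie in a set `D ∋ 0` with `|D| ^ h ≤ g`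
form a set which is thin of order `h` along `1, g, g², ...`. -/
theorem digitSet_thin (h g : ℕ) (hg : 2 ≤ g) (D : Finset ℕ) (h0 : 0 ∈ D)
    (hcard : D.card ^ h ≤ g) : ThinAlongChainH h {n | ∀ d ∈ Nat.digits g n, d ∈ D} := by
  classical
  set S : Set ℕ := {n | ∀ d ∈ Nat.digits g n, d ∈ D} with hS
  have hmem0 : (0 : ℕ) ∈ S := by
    rw [hS]
    intro d hd
    simp at hd
  have hdiv : ∀ a ∈ S, a % g ∈ D ∧ a / g ∈ S := by
    intro a ha
    rcases Nat.eq_zero_or_pos a with rfl | hpos
    · simp only [Nat.zero_mod, Nat.zero_div]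
      exact ⟨h0, hmem0⟩
    · have hd : Nat.digits g a = (a % g) :: Nat.digits g (a / g) :=
        Nat.digits_def' (by omega) hpos
      have ha' : ∀ d ∈ Nat.digits g a, d ∈ D := ha
      rw [hd] at ha'
      refine ⟨ha' _ (List.mem_cons_self), ?_⟩
      intro d hd'
      exact ha' d (List.mem_cons_of_mem _ hd')
  have hfin : ∀ j, ((fun a => a % g ^ j) '' S).Finite := by
    intro j
    apply Set.Finite.subset (Set.finite_Iio (g ^ j))
    rintro r ⟨a, _, rfl⟩
    exact Nat.mod_lt _ (Nat.pow_pos (by omega))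
  have hle : ∀ j, numClasses S (g ^ j) ≤ D.card ^ j := by
    intro j
    induction j with
    | zero =>
      unfold numClasses
      have : ((fun a => a % g ^ 0) '' S) ⊆ {0} := by
        rintro r ⟨a, _, rfl⟩
        simp [Nat.mod_one]
      refine le_trans (Set.ncard_le_ncard this (Set.finite_singleton _)) ?_
      simp
    | succ j ih =>
      unfold numClasses at ih ⊢
      have hsub : ((fun a => a % g ^ (j + 1)) '' S) ⊆
          (fun p : ℕ × ℕ => p.1 + g * p.2) '' ((D : Set ℕ) ×ˢ ((fun a => a % g ^ j) '' S)) := by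
        rintro r ⟨a, ha, rfl⟩
        obtain ⟨h1, h2⟩ := hdiv a ha
        refine ⟨(a % g, (a / g) % g ^ j), ⟨h1, ⟨a / g, h2, rfl⟩⟩, ?_⟩
        simp only
        rw [pow_succ', Nat.mod_mul]
      refine le_trans (Set.ncard_le_ncard hsub ?_) ?_
      · exact Set.Finite.image _ (Set.Finite.prod (Finset.finite_toSet D) (hfin j))
      refine le_trans (Set.ncard_image_le
        (Set.Finite.prod (Finset.finite_toSet D) (hfin j))) ?_
      rw [Set.ncard_prod, Set.ncard_coe_finset, pow_succ']
      exact Nat.mul_le_mul_left _ ih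
  refine ⟨fun j => g ^ j, by simp, fun j => ⟨pow_dvd_pow g (by omega),
    Nat.pow_lt_pow_right (by omega) (by omega)⟩, ?_⟩
  intro hsum
  have hlim := hsum.tendsto_atTop_zero
  have hge : ∀ j, (1 : ℝ) ≤ ((g ^ j : ℕ) : ℝ) / (numClasses S (g ^ j) : ℝ) ^ h := by
    intro j
    have hpos : 0 < numClasses S (g ^ j) := by
      unfold numClasses
      rw [Set.ncard_pos (hfin j)]
      exact ⟨_, 0, hmem0, rfl⟩
    rw [le_div_iff₀ (by have : (0 : ℝ) < numClasses S (g ^ j) := by exact_mod_cast hpos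
                        positivity), one_mul]
    have h1 : (numClasses S (g ^ j)) ^ h ≤ g ^ j := by
      calc (numClasses S (g ^ j)) ^ h ≤ (D.card ^ j) ^ h := Nat.pow_le_pow_left (hle j) h
        _ = (D.card ^ h) ^ j := by rw [← pow_mul, ← pow_mul, mul_comm]
        _ ≤ g ^ j := Nat.pow_le_pow_left hcard j
    exact_mod_cast h1
  have := ge_of_tendsto' hlim hge
  linarith

lemma negligibleH_empty (n : ℕ) : NegligibleH (n + 1) ∅ := by
  intro K ε hε
  filter_upwards with x T hT hK
  have hT0 : T = ∅ := by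
    rw [Finset.eq_empty_iff_forall_notMem]
    intro a ha
    exact (hT a ha).1
  rw [hT0, Finset.card_empty, Nat.cast_zero, zero_pow (by omega)]
  positivity

lemma ThinH.negligible {n : ℕ} (hn : 1 ≤ n) {S : Set ℕ} (h : ThinH (n + 1) S) :
    NegligibleH (n + 1) S := by
  rcases S.eq_empty_or_nonempty with rfl | hne
  · exact negligibleH_empty n
  · rcases h with h | h
    · exact h.negligible hn
    · exact h.negligible hne

lemma Small.negligible {n : ℕ} (hn : 1 ≤ n) {S : Set ℕ} (h : Small (n + 1) S) :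
    NegligibleH (n + 1) S := by
  rcases h with h | ⟨δ, hδ, h⟩ | ⟨u, q, ε, hu0, hq, hu, hε, h⟩
  · exact h.negligible hn
  · exact (avoid_biased S δ hδ h).negligibleH (n + 1) (by omega)
  · exact ((irregular_biased u q hu0 hq hu ε hε).mono h).negligibleH (n + 1) (by omega)

/-- **Main result.**  Let `h ≥ 2`. -/
theorem result (h : ℕ) (hh : 2 ≤ h) :
    -- 1. few elements are irregular, unless `r_{A,h}` takes large values
    (∀ (u : ℕ → ℝ) (q ε : ℝ), 0 < u 0 → 1 < q → (∀ j, q * u j ≤ u (j + 1)) → 0 < ε →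
      ∃ c : ℝ, 0 < c ∧ ∀ᶠ x : ℕ in atTop, ∀ A : Set ℕ, ∃ n, n ≤ h * x ∧
        ((A ∩ Irregular u ε ∩ Set.Iic x).ncard : ℝ) ^ h *
          Real.exp (c * {j : ℕ | u j ≤ x}.ncard) ≤ x * (msets A h n).ncard) ∧
    -- 2. power lower bound for `r_{A,h}`, in particular for bases of irregular integers
    (∀ β ε : ℝ, 1 < β → 0 < ε → ∃ δ : ℝ, 0 < δ ∧ ∀ A : Set ℕ,
      ((∃ᶠ x : ℕ in atTop, (x : ℝ) ^ (1 - δ) ≤
          ((A ∩ Irregular (fun j => β ^ j) ε ∩ Set.Iic x).ncard : ℝ) ^ h) →
        ∃ᶠ n : ℕ in atTop, (n : ℝ) ^ δ ≤ (msets A h n).ncard) ∧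
      ((∀ᶠ n in atTop, msets A h n ≠ ∅) → A ⊆ Irregular (fun j => β ^ j) ε →
        ∃ᶠ n : ℕ in atTop, (n : ℝ) ^ δ ≤ (msets A h n).ncard)) ∧
    -- 3. bounded `r_{A,h}` and small sets
    (∀ (k : ℕ) (S : Fin k → Set ℕ), (∀ i, Small h (S i)) → ∀ A : Set ℕ,
      (∃ r, ∀ n, (msets A h n).ncard ≤ r) →
      Tendsto (fun x : ℕ => ((A ∩ (⋃ i, S i) ∩ Set.Iic x).ncard : ℝ) ^ h / x) atTop (𝓝 0) ∧
      (A ⊆ ⋃ i, S i → ∃ᶠ n in atTop, msets A h n = ∅)) ∧
    -- 4. distribution modulo `d`
    (∀ ε : ℝ, 0 < ε → ∃ C : ℝ, 0 < C ∧ ∀ (A : Set ℕ) (x : ℕ), 0 < x → ∃ n, n ≤ h * x ∧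
      ∀ D : Finset ℕ, (∀ d ∈ D, 0 < d) → (∀ d ∈ D, ∀ d' ∈ D, d ≠ d' → Nat.lcm d d' ≤ x) →
      (∀ d ∈ D, Uneven ε (trunc A x) (fun a => (a : ℝ) / (d : ℝ))) →
      (D.card : ℝ) * ((A ∩ Set.Iic x).ncard : ℝ) ^ h ≤ C * x * (msets A h n).ncard) := by
  obtain ⟨n, rfl⟩ : ∃ n, h = n + 1 := ⟨h - 1, by omega⟩
  refine ⟨?_, ?_, ?_, ?_⟩
  · intro u q ε hu0 hq hu hε
    exact irr_sets (n + 1) (by omega) u q ε hu0 hq hu hε
  · intro β ε hβ hε
    exact irr_power_basis (n + 1) (by omega) β ε hβ hε
  · intro k S hS A hr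
    have hneg : NegligibleH (n + 1) (⋃ i, S i) :=
      negligibleH_iUnion n S (fun i => (hS i).negligible (by omega))
    have hneg' : NegligibleH (n + 1) (A ∩ ⋃ i, S i) := hneg.mono Set.inter_subset_right
    have hr' : ∃ r, ∀ m, (msets (A ∩ ⋃ i, S i) (n + 1) m).ncard ≤ r := by
      obtain ⟨r, hr⟩ := hr
      exact ⟨r, fun m => (msets_mono Set.inter_subset_left (n + 1) m).trans (hr m)⟩
    constructor
    · rw [Metric.tendsto_atTop]
      intro ε hε
      have h1 := negligibleH_count hneg' hr' (ε / 2) (by positivity)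
      rw [eventually_atTop] at h1
      obtain ⟨N, hN⟩ := h1
      refine ⟨N + 1, fun x hx => ?_⟩
      have h2 := hN x (by omega)
      have hx0 : (0 : ℝ) < x := by
        have : 0 < x := by omega
        exact_mod_cast this
      rw [Real.dist_eq, sub_zero, abs_of_nonneg (by positivity), div_lt_iff₀ hx0]
      nlinarith
    · intro hA
      exact negligibleH_basis (hneg.mono hA) hr
  · intro ε hε
    exact moduli_sets (n + 1) (by omega) ε hε

end Pool.Agent.Results.MP_d5a1e1_nt.IrregularBases
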