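import Pool.Agent.H125R2.ET.Main

/-!
# A thin asymptotic basis of order two with `r_{A,2}(n) = O(log n / log log n)`

Unordered representations (multisets of two elements of `A` with sum `n`).  The set is the one
built in `Pool.Agent.H125R2.ET` (blocks with digit sets made of parabolas modulo primes, and
independent random shifts of the higher digits).
-/

set_option autoImplicit false

namespace Pool.Agent.Results.MP_d5a1e1_nt.SparseOrderTwo

open Pool.Agent.H125R2.ET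

/-- `msets A h n`: the multisets of `h` elements of `A` with sum `n`; `r_{A,h}(n)` is their
number -/
def msets (A : Set ℕ) (h n : ℕ) : Set (Multiset ℕ) :=
  {s | Multiset.card s = h ∧ (∀ a ∈ s, a ∈ A) ∧ s.sum = n}

theorem pairs_finite (A : Set ℕ) (n : ℕ) :
    {x : ℕ × ℕ | x.1 ∈ A ∧ x.2 ∈ A ∧ x.1 + x.2 = n}.Finite := by
  refine ((Set.finite_Iic n).prod (Set.finite_Iic n)).subset ?_
  rintro ⟨a, b⟩ ⟨_, _, h⟩
  simp only at h
  exact ⟨by simp only [Set.mem_Iic]; omega, by simp only [Set.mem_Iic]; omega⟩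

theorem msets_two (A : Set ℕ) (n : ℕ) :
    msets A 2 n = (fun x : ℕ × ℕ => ({x.1, x.2} : Multiset ℕ)) ''
      {x : ℕ × ℕ | x.1 ∈ A ∧ x.2 ∈ A ∧ x.1 + x.2 = n} := by
  ext s
  constructor
  · rintro ⟨h1, h2, h3⟩
    obtain ⟨a, b, rfl⟩ := Multiset.card_eq_two.mp h1
    refine ⟨(a, b), ⟨h2 a (by simp), h2 b (by simp), ?_⟩, rfl⟩
    simpa using h3
  · rintro ⟨⟨a, b⟩, ⟨h1, h2, h3⟩, rfl⟩
    refine ⟨by simp, ?_, by simpa using h3⟩
    intro c hc
    simp only [Multiset.insert_eq_cons, Multiset.mem_cons, Multiset.mem_singleton] at hc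
    rcases hc with rfl | rfl
    · exact h1
    · exact h2

theorem msets_finite (A : Set ℕ) (n : ℕ) : (msets A 2 n).Finite := by
  rw [msets_two]
  exact (pairs_finite A n).image _

theorem ncard_le (A : Set ℕ) (n : ℕ) : (msets A 2 n).ncard ≤ rA A n := by
  rw [msets_two]
  exact Set.ncard_image_le (pairs_finite A n)

theorem one_le_ncard (A : Set ℕ) (n : ℕ) (h : 1 ≤ rA A n) : 1 ≤ (msets A 2 n).ncard := by
  have h1 : (msets A 2 n).Nonempty := by
    rw [msets_two]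
    refine Set.Nonempty.image _ ?_
    apply Set.nonempty_of_ncard_ne_zero
    have : rA A n = {x : ℕ × ℕ | x.1 ∈ A ∧ x.2 ∈ A ∧ x.1 + x.2 = n}.ncard := rfl
    omega
  exact (Set.ncard_pos (msets_finite A n)).mpr h1

theorem result : ∃ A : Set ℕ,
    (∃ n₀ : ℕ, ∀ n ≥ n₀, 1 ≤ (msets A 2 n).ncard) ∧
    (∃ B : ℝ, ∀ x : ℕ, ({a : ℕ | a ∈ A ∧ a ≤ x}.ncard : ℝ) ≤ B * Real.sqrt x) ∧
    (∃ B : ℝ, ∀ n : ℕ, 3 ≤ n →
      ((msets A 2 n).ncard : ℝ) ≤ B * (Real.log n / Real.log (Real.log n))) ∧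
    (∃ B c : ℝ, 0 < c ∧ ∀ x m : ℕ, 1 ≤ x → 1 ≤ m →
      ({n : ℕ | n ≤ x ∧ m ≤ (msets A 2 n).ncard}.ncard : ℝ) ≤
        B * x * Real.exp (-(c * m * Real.log m))) := by
  obtain ⟨A, ⟨n₀, h1⟩, h2, ⟨B, _, h3⟩, ⟨B', c, hc, h4⟩⟩ := thin_basis
  refine ⟨A, ⟨n₀, fun n hn => one_le_ncard A n (h1 n hn)⟩, h2, ⟨B, fun n hn => ?_⟩,
    ⟨B', c, hc, fun x m hx hm => ?_⟩⟩
  · exact le_trans (by exact_mod_cast ncard_le A n) (h3 n hn)
  · refine le_trans ?_ (h4 x m hx hm)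
    have : {n : ℕ | n ≤ x ∧ m ≤ (msets A 2 n).ncard}.ncard ≤
        {n : ℕ | n ≤ x ∧ m ≤ rA A n}.ncard := by
      refine Set.ncard_le_ncard ?_ ?_
      · rintro n ⟨h5, h6⟩
        exact ⟨h5, le_trans h6 (ncard_le A n)⟩
      · exact (Set.finite_Iic x).subset (fun n hn => hn.1)
    exact_mod_cast this

end Pool.Agent.Results.MP_d5a1e1_nt.SparseOrderTwo
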