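import Pool.Agent.H396R2.Final3

set_option autoImplicit false

open Finset

/-!
# Representation functions of order `h` cannot stay in a short interval

Let `r(n)` be the number of multisets of `h` elements of `A` with sum `n`.  If `r(n) ≥ l` outside a
set of small upper density, then `r(n) > K` infinitely often, as soon as
`(K + l - 1 + 1/h)^2 < 4 l K`, i.e. `√K - √l < √(1 - 1/h)`.  In particular (`l = 1`, `K = 3`) every
asymptotic basis of order `h ≥ 3` has `r(n) ≥ 4` for infinitely many `n`.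
-/

namespace Pool.Agent.Results.MP_d5a1e1_nt.VarianceGap

/-- Let `h ≥ 2`, `l, K ≥ 1`, `A ⊆ ℕ`, and let `r(n)` be the number of multisets of size `h` with
elements in `A` and sum `n`.  If for some `δ < 1 - (K + l - 1 + 1/h)^2 / (4 l K)` the number of
`n < N` with `r(n) < l` is at most `δ N` for all large `N`, then `r(n) > K` for infinitely
many `n`. -/
theorem result (h : ℕ) (hh : 2 ≤ h) (l K : ℕ) (hl : 1 ≤ l) (hK : 1 ≤ K) (A : Set ℕ) (δ : ℝ)
    (hδ : δ < 1 - ((K : ℝ) + l - 1 + 1 / h) ^ 2 / (4 * l * K))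
    (hd : ∀ᶠ N : ℕ in Filter.atTop,
      (Set.ncard {n : ℕ | n < N ∧
        Set.ncard {s : Multiset ℕ | Multiset.card s = h ∧ (∀ a ∈ s, a ∈ A) ∧ s.sum = n} < l} : ℝ)
        ≤ δ * N) :
    ∀ n₀ : ℕ, ∃ n : ℕ, n₀ ≤ n ∧
      K < Set.ncard {s : Multiset ℕ | Multiset.card s = h ∧ (∀ a ∈ s, a ∈ A) ∧ s.sum = n} := by
  classical
  obtain ⟨g, rfl⟩ : ∃ g, h = g + 2 := ⟨h - 2, by omega⟩
  intro n₀
  by_contra hcon
  push Not at hcon
  rw [Filter.eventually_atTop] at hd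
  obtain ⟨N1, hN1⟩ := hd
  refine H396R2.no_bounded g l K hl hK A δ ?_ N1 ?_ n₀ ?_
  · have : ((g + 2 : ℕ) : ℝ) = (g : ℝ) + 2 := by push_cast; ring
    rw [this] at hδ
    exact hδ
  · intro N hN
    have h1 := hN1 N hN
    have h2 : {n : ℕ | n < N ∧ Set.ncard {s : Multiset ℕ | Multiset.card s = g + 2 ∧
        (∀ a ∈ s, a ∈ A) ∧ s.sum = n} < l}
        = (((range N).filter (fun n => H396R2.rep A (g + 2) n < l) : Finset ℕ) : Set ℕ) := by
      ext n
      simp only [Set.mem_setOf_eq, Finset.coe_filter, Finset.mem_range, H396R2.rep]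
    rw [h2, Set.ncard_coe_finset] at h1
    exact h1
  · intro n hn
    exact hcon n hn

/-- Corollary: an asymptotic basis of order `h ≥ 3` has `r(n) ≥ 4` for infinitely many `n`. -/
theorem four_le (h : ℕ) (hh : 3 ≤ h) (A : Set ℕ)
    (hA : ∃ N : ℕ, ∀ n : ℕ, N ≤ n →
      ∃ s : Multiset ℕ, Multiset.card s = h ∧ (∀ a ∈ s, a ∈ A) ∧ s.sum = n) :
    ∀ n₀ : ℕ, ∃ n : ℕ, n₀ ≤ n ∧
      4 ≤ Set.ncard {s : Multiset ℕ | Multiset.card s = h ∧ (∀ a ∈ s, a ∈ A) ∧ s.sum = n} := by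
  have hh' : (3 : ℝ) ≤ h := by exact_mod_cast hh
  have h1 : (1 : ℝ) / h ≤ 1 / 3 := one_div_le_one_div_of_le (by norm_num) hh'
  have h0 : (0 : ℝ) ≤ 1 / h := by positivity
  apply result h (by omega) 1 3 le_rfl (by norm_num) A (1 / 100)
  · push_cast
    have : (3 + 1 - 1 + 1 / (h : ℝ)) ^ 2 ≤ (3 + 1 - 1 + 1 / 3) ^ 2 :=
      pow_le_pow_left₀ (by linarith) (by linarith) 2
    have h2 : (3 + 1 - 1 + 1 / (h : ℝ)) ^ 2 / (4 * 1 * 3) ≤ (3 + 1 - 1 + 1 / 3) ^ 2 / (4 * 1 * 3) :=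
      div_le_div_of_nonneg_right this (by norm_num)
    norm_num at h2 ⊢
    linarith
  · obtain ⟨N0, hN0⟩ := hA
    rw [Filter.eventually_atTop]
    refine ⟨100 * N0, fun N hN => ?_⟩
    have hsub : {n : ℕ | n < N ∧ Set.ncard {s : Multiset ℕ | Multiset.card s = h ∧
        (∀ a ∈ s, a ∈ A) ∧ s.sum = n} < 1} ⊆ ((range N0 : Finset ℕ) : Set ℕ) := by
      rintro n ⟨_, h2⟩
      rw [Finset.mem_coe, Finset.mem_range]
      by_contra h3
      rw [not_lt] at h3
      obtain ⟨s, hs⟩ := hN0 n h3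
      have h4 : (0 : ℕ) < Set.ncard {s : Multiset ℕ | Multiset.card s = h ∧
          (∀ a ∈ s, a ∈ A) ∧ s.sum = n} := by
        rw [Set.ncard_pos (H396R2.rep_set_finite A h n)]
        exact ⟨s, hs⟩
      omega
    have h2 := Set.ncard_le_ncard hsub (Finset.finite_toSet _)
    rw [Set.ncard_coe_finset, card_range] at h2
    have h3 : (Set.ncard {n : ℕ | n < N ∧ Set.ncard {s : Multiset ℕ | Multiset.card s = h ∧
        (∀ a ∈ s, a ∈ A) ∧ s.sum = n} < 1} : ℝ) ≤ N0 := by exact_mod_cast h2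
    have h4 : (100 : ℝ) * N0 ≤ N := by exact_mod_cast hN
    linarith

end Pool.Agent.Results.MP_d5a1e1_nt.VarianceGap
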